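import Mathlib
import Pool.Agent.Y90.Bal2
import Pool.Agent.Y4.P.Jobs

/-!
# Project P: submodules which are not self-dual
-/

set_option linter.unusedSectionVars false

namespace Pool.Agent.Y960.P

open Matrix Module Pool.Agent.Y90 Pool.Agent.W437.HC Pool.Agent.W437.HD
  Pool.Agent.TH504.CB Pool.Agent.W522.U Pool.Agent.Y4.P
open Pool.Agent.W548.Odd hiding cv

noncomputable section

variable {g : ℕ} {Z : Matrix (Fin g) (Fin g) ℂ} {U U' : Submodule ℂ (Fin g ⊕ Fin g → ℂ)}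

/-- Conjugates of self-dual submodules are self-dual. -/
theorem sdu_cj (hd : SDu Z U) (τ : ℂ ≃+* ℂ) : SDu Z (cjS τ U) := by
  obtain ⟨b, ⟨u, hu, v, hv, huv⟩, hb⟩ := hd
  refine ⟨cjB τ b, ⟨_, cj_mem_cjS hu, _, cj_mem_cjS hv, ?_⟩, ?_⟩
  · rw [cjB_apply]
    simp only [RingEquiv.symm_apply_apply]
    rw [ne_eq, map_eq_zero_iff τ τ.injective]
    exact huv
  · intro X hX u hu v hv
    rw [cjB_apply, cjB_apply, map_mulVec_aut τ.symm, map_mulVec_aut τ.symm, ← map_add,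
      hb _ (gal_LZ τ.symm X hX) _ hu _ hv, map_zero]

/-- Pull-back of an invariant form. -/
theorem sdu_of_map {T : (Fin g ⊕ Fin g → ℂ) →ₗ[ℂ] (Fin g ⊕ Fin g → ℂ)}
    (hT : ∀ X ∈ LZ Z, ∀ u ∈ U, T (X *ᵥ u) = X *ᵥ T u) (hd : SDu Z (U.map T)) : SDu Z U := by
  obtain ⟨b, ⟨_, ⟨u, hu, rfl⟩, _, ⟨v, hv, rfl⟩, huv⟩, hb⟩ := hd
  refine ⟨b.compl₁₂ T T, ⟨u, hu, v, hv, huv⟩, fun X hX u hu v hv => ?_⟩
  rw [LinearMap.compl₁₂_apply, LinearMap.compl₁₂_apply, hT X hX u hu, hT X hX v hv]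
  exact hb X hX _ ⟨u, hu, rfl⟩ _ ⟨v, hv, rfl⟩

/-- If the variety is simple then either all irreducible submodules are self-dual or none is. -/
theorem sdu_irS (h : PM Z) (hs : IsSimpleAV Z) (hU : IrS (LZ Z) U) (hU' : IrS (LZ Z) U')
    (hd : SDu Z U') : SDu Z U := by
  obtain ⟨π, h1, h2, h3⟩ := h.cred U' hU'.2.1
  obtain ⟨σ, u, hu, hu'⟩ : ∃ σ : ℂ ≃+* ℂ, ∃ u ∈ cjS σ U, π u ≠ 0 := by
    by_contra hcon
    push Not at hcon
    have h4 : ⨆ σ : ℂ ≃+* ℂ, cjS σ U ≤ LinearMap.ker π := iSup_le fun σ u hu => hcon σ u hu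
    rw [conj_span h hs hU.2.1 hU.1, top_le_iff] at h4
    apply hU'.1
    rw [eq_bot_iff]
    intro x hx
    have h5 : x ∈ LinearMap.ker π := by rw [h4]; trivial
    rw [Submodule.mem_bot, ← h3 x hx]
    exact h5
  have hc := hU.cj gal_LZ σ
  have hT : ∀ X ∈ LZ Z, ∀ u ∈ cjS σ U, π (X *ᵥ u) = X *ᵥ π u := fun X hX u _ => h1 X hX u
  have h4 := hc.map_eq hU' hT ⟨u, hu, hu'⟩ (fun u _ => h2 u)
  have h5 : SDu Z (cjS σ U) := sdu_of_map hT (by rw [h4]; exact hd)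
  have h6 := sdu_cj h5 σ.symm
  rwa [cjS_symm] at h6

/-- The orthogonal space. -/
def perp (M : Submodule ℂ (Fin g ⊕ Fin g → ℂ)) : Submodule ℂ (Fin g ⊕ Fin g → ℂ) :=
  LinearMap.BilinForm.orthogonal (om g) M

theorem mem_perp {M : Submodule ℂ (Fin g ⊕ Fin g → ℂ)} {v : Fin g ⊕ Fin g → ℂ} :
    v ∈ perp M ↔ ∀ m ∈ M, om g m v = 0 := Iff.rfl

theorem finrank_perp (M : Submodule ℂ (Fin g ⊕ Fin g → ℂ)) :
    finrank ℂ M + finrank ℂ (perp M) = 2 * g := by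
  have h1 : LinearMap.ker (om g) = ⊥ := by
    rw [eq_bot_iff]
    intro u hu
    rw [LinearMap.mem_ker] at hu
    rw [Submodule.mem_bot]
    exact om_nd u fun v => by rw [hu, LinearMap.zero_apply]
  have h2 := LinearMap.BilinForm.finrank_add_finrank_orthogonal' (B := om g) M
  have h3 : finrank ℂ (Fin g ⊕ Fin g → ℂ) = 2 * g := by
    rw [Module.finrank_fintype_fun_eq_card, Fintype.card_sum, Fintype.card_fin]
    ring
  have h4 : (M ⊓ (LinearMap.ker (om g))) = ⊥ := by rw [h1, inf_bot_eq]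
  have h5 : finrank ℂ (M ⊓ (LinearMap.ker (om g)) : Submodule ℂ (Fin g ⊕ Fin g → ℂ)) = 0 := by
    rw [h4, finrank_bot]
  unfold perp
  rw [h3] at h2
  omega

theorem stab_perp (h : PM Z) {M : Submodule ℂ (Fin g ⊕ Fin g → ℂ)} (hM : Stab (LZ Z) M) :
    Stab (LZ Z) (perp M) := by
  intro X hX v hv
  rw [mem_perp] at hv ⊢
  intro m hm
  have h1 := h.om_sp hX m v
  rwa [hv _ (hM X hX m hm), zero_add] at h1

theorem jdvd : JDvd := by
  classical
  intro g Z h hs _ U hU hd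
  let P : ℕ → Prop := fun k => ∃ M : Submodule ℂ (Fin g ⊕ Fin g → ℂ), Stab (LZ Z) M ∧
    M ≤ perp M ∧ finrank ℂ M = k
  have hP0 : P 0 := ⟨⊥, fun X _ u hu => by
    rw [Submodule.mem_bot] at hu ⊢
    rw [hu, mulVec_zero], bot_le, finrank_bot ℂ _⟩
  have hPb : ∀ k, P k → k ≤ 2 * g := by
    rintro k ⟨M, -, -, rfl⟩
    have := finrank_perp M
    omega
  obtain ⟨M, hM, hMi, hMk⟩ : P (Nat.findGreatest P (2 * g)) :=
    Nat.findGreatest_spec (P := P) (Nat.zero_le (2 * g)) hP0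
  have hmax : ∀ k, P k → k ≤ finrank ℂ M := by
    intro k hk
    rw [hMk]
    exact Nat.le_findGreatest (hPb k hk) hk
  have hdim := finrank_perp M
  obtain ⟨C, hC, hCp, h1, h2⟩ := h.cred.compl hM (stab_perp h hM) hMi
  by_cases hC0 : C = ⊥
  · rw [hC0, sup_bot_eq] at h2
    rw [← h2] at hdim
    refine h.cred.dvd (fun U' hU' => finrank_irS h hs hU' hU) g M ?_ hM
    omega
  · exfalso
    obtain ⟨U1, hU1, hU1i⟩ := exists_irS _ C rfl hC0 hC
    have h3 : ∃ u ∈ U1, ∃ v ∈ U1, om g u v ≠ 0 := by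
      by_contra hcon
      push Not at hcon
      have h4 : M ⊓ U1 = ⊥ := by
        rw [eq_bot_iff, ← h1]
        exact inf_le_inf_left _ hU1
      have h5 : finrank ℂ (M ⊔ U1 : Submodule ℂ (Fin g ⊕ Fin g → ℂ)) =
          finrank ℂ M + finrank ℂ U1 := (finrank_split h4 rfl).symm
      have h6 : 0 < finrank ℂ U1 := by
        rw [Nat.pos_iff_ne_zero, ne_eq, Submodule.finrank_eq_zero]
        exact hU1i.1
      have h7 := hmax (finrank ℂ (M ⊔ U1 : Submodule ℂ (Fin g ⊕ Fin g → ℂ)))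
        ⟨M ⊔ U1, hM.sup hU1i.2.1, ?_, rfl⟩
      · omega
      · intro v hv
        rw [mem_perp]
        intro m hm
        obtain ⟨a, ha, b, hb, rfl⟩ := Submodule.mem_sup.1 hv
        obtain ⟨a', ha', b', hb', rfl⟩ := Submodule.mem_sup.1 hm
        have e1 : om g a' a = 0 := mem_perp.1 (hMi ha) a' ha'
        have e2 : om g a' b = 0 := mem_perp.1 (hCp (hU1 hb)) a' ha'
        have e3 : om g b' a = 0 := by
          rw [om_anti, mem_perp.1 (hCp (hU1 hb')) a ha, neg_zero]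
        have e4 : om g b' b = 0 := hcon b' hb' b hb
        rw [map_add, map_add, LinearMap.add_apply, LinearMap.add_apply, e1, e2, e3, e4]
        ring
    exact hd (sdu_irS h hs hU hU1i ⟨om g, h3, fun X hX u _ v _ => h.om_sp hX u v⟩)

theorem jhalf : JHalf := by
  intro g Z h hs _ U hU hn hd T hT u0 hu0
  obtain ⟨π, h1, h2, h3⟩ := h.cred U hU.2.1
  by_contra hcon
  -- the projection to the complement
  let S : (Fin g ⊕ Fin g → ℂ) →ₗ[ℂ] (Fin g ⊕ Fin g → ℂ) := T - π ∘ₗ T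
  have hS : ∀ u, S u = T u - π (T u) := fun u => rfl
  have hSX : ∀ X ∈ LZ Z, ∀ u, S (X *ᵥ u) = X *ᵥ S u := by
    intro X hX u
    rw [hS, hS, hT X hX, h1 X hX, mulVec_sub]
  have hS0 : ∃ u ∈ U, S u ≠ 0 := by
    refine ⟨u0, hu0, fun h0 => hcon ?_⟩
    rw [hS, sub_eq_zero] at h0
    rw [h0]
    exact h2 _
  have hSi := hU.inj (fun X hX u _ => hSX X hX u) hS0
  have hfr : finrank ℂ (U.map S) = g := by rw [finrank_map_of_inj hSi, hn]
  have hdis : U ⊓ U.map S = ⊥ := by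
    rw [eq_bot_iff]
    rintro x ⟨hx, ⟨u, hu, rfl⟩⟩
    rw [Submodule.mem_bot]
    have h4 := h3 _ hx
    rw [← h4, hS, map_sub, h3 _ (h2 _), sub_self]
  have htop : U ⊔ U.map S = ⊤ := by
    apply Submodule.eq_top_of_finrank_eq
    rw [← finrank_split hdis rfl, hfr, hn, Module.finrank_fintype_fun_eq_card, Fintype.card_sum,
      Fintype.card_fin]
  apply hd
  by_cases hom : ∃ u ∈ U, ∃ v ∈ U, om g u v ≠ 0
  · exact ⟨om g, hom, fun X hX u _ v _ => h.om_sp hX u v⟩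
  · push Not at hom
    obtain ⟨u, hu, hu'⟩ := Submodule.exists_mem_ne_zero_of_ne_bot hU.1
    obtain ⟨v, hv, huv⟩ : ∃ v ∈ U, om g u (S v) ≠ 0 := by
      by_contra hcon2
      push Not at hcon2
      refine hu' (om_nd' htop (fun v hv => hom u hu v hv) ?_)
      rintro _ ⟨v, hv, rfl⟩
      exact hcon2 v hv
    refine ⟨(om g).compl₂ S, ⟨u, hu, v, hv, huv⟩, fun X hX u _ v _ => ?_⟩
    rw [LinearMap.compl₂_apply, LinearMap.compl₂_apply, hSX X hX]
    exact h.om_sp hX u (S v)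

end

end Pool.Agent.Y960.P
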