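import Mathlib
import Pool.Agent.Y90.Bal1
import Pool.Agent.Y4.P.Jobs

/-!
# Project P: the complex structure does not act by scalars, and elements of degree one
-/

set_option linter.unusedSectionVars false

namespace Pool.Agent.Y960.P

open Matrix Module Pool.Agent.Y90 Pool.Agent.W437.HC Pool.Agent.W437.HD
  Pool.Agent.TH504.CB Pool.Agent.W522.U Pool.Agent.Y4.P
open Pool.Agent.W548.Odd hiding cv

noncomputable section

theorem jnonscalar (hJ : JDvd) : JNonscalar := by
  intro g Z h hs hg U hU hn σ c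
  by_contra hcon
  push Not at hcon
  -- a conjugate on which the complex structure is scalar
  obtain ⟨F, hF, hFn, ε, hε⟩ : ∃ F : Submodule ℂ (Fin g ⊕ Fin g → ℂ), IrS (LZ Z) F ∧
      finrank ℂ F = finrank ℂ U ∧ ∃ ε : ℂ, ∀ u ∈ F, DZ Z *ᵥ u = ε • u := by
    refine ⟨cjS σ.symm U, hU.cj gal_LZ _, finrank_cjS _ _, σ.symm c, fun u hu => ?_⟩
    rw [mem_cjS] at hu
    have h1 := hcon _ hu
    have h2 : (fun i => σ.symm ((DS Z σ *ᵥ fun i => σ.symm.symm (u i)) i)) =
        fun i => σ.symm ((c • fun i => σ.symm.symm (u i)) i) := by rw [h1]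
    rw [map_mulVec_aut σ.symm] at h2
    have h3 : (DS Z σ).map σ.symm = DZ Z := by
      ext i j
      simp [DS]
    rw [h3] at h2
    have h4 : (fun i => σ.symm (σ.symm.symm (u i))) = u := by
      funext i
      simp
    rw [h4] at h2
    rw [h2]
    funext i
    simp
  have hε1 : ε = 1 ∨ ε = -1 := by
    obtain ⟨v, hv, hv0⟩ := Submodule.exists_mem_ne_zero_of_ne_bot hF.1
    have h2 : DZ Z *ᵥ (DZ Z *ᵥ v) = v := by rw [mulVec_mulVec, DZ_sq h.det, one_mulVec]
    rw [hε v hv, mulVec_smul, hε v hv, smul_smul] at h2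
    have h3 : (ε * ε - 1) • v = 0 := by rw [sub_smul, h2, one_smul, sub_self]
    have h4 := (smul_eq_zero.1 h3).resolve_right hv0
    have h5 : (ε - 1) * (ε + 1) = 0 := by linear_combination h4
    rcases mul_eq_zero.1 h5 with h6 | h6
    · exact Or.inl (sub_eq_zero.1 h6)
    · exact Or.inr (eq_neg_of_add_eq_zero_left h6)
  have hFe : F ≤ eig Z ε := fun u hu => hε u hu
  have heg : finrank ℂ (eig Z ε) = g := by
    rcases hε1 with rfl | rfl
    · exact (finrank_eig h).1
    · exact (finrank_eig h).2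
  rw [← hFn] at hn
  -- the submodule is not self-dual
  have hnd : ¬SDu Z F := by
    rintro ⟨b, h0, hb⟩
    have h1 := dual_le h hF hF.2.1 h0 hb hε1
    have h2 : F ⊓ eig Z ε = F := inf_eq_left.2 hFe
    have h3 : F ⊓ eig Z (-ε) = ⊥ := by
      rw [eq_bot_iff, ← eig_inf (Z := Z) ε (-ε) (by
        rcases hε1 with rfl | rfl <;> norm_num)]
      exact inf_le_inf_right _ hFe
    rw [h2, h3, finrank_bot] at h1
    omega
  have hdvd := hJ g Z h hs hg.pos F hF hnd
  have hng : finrank ℂ F = g := by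
    rcases (Nat.dvd_prime hg).1 hdvd with h1 | h1
    · omega
    · exact h1
  have h1 : F = eig Z ε := Submodule.eq_of_le_of_finrank_eq hFe (by rw [hng, heg])
  have h2 := finrank_one_of_comm (comm_of_stab h hε1 (by rw [← h1]; exact hF.2.1)) hF
  omega

theorem jup (hJ : JNonscalar) : JUp := by
  intro g Z h hs hg U hU hn
  by_contra hcon
  push Not at hcon
  have hDr : DS Z (RingEquiv.refl ℂ) = DZ Z := by
    ext i j
    rfl
  have hst : Stab (LZ Z) (U ⊓ eig Z (-1)) := by
    rintro y hy u ⟨hu, hu'⟩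
    refine ⟨hU.2.1 y hy u hu, ?_⟩
    have h1 := hcon _ (up_mem h hy) (up_l h y) (up_r h y) u hu
    have hu2 : DZ Z *ᵥ u = (-1 : ℂ) • u := hu'
    have h2 : (1 - DZ Z) *ᵥ u = (2 : ℂ) • u := by
      rw [sub_mulVec, one_mulVec, hu2]
      module
    rw [smul_mulVec, ← mulVec_mulVec, ← mulVec_mulVec, h2, mulVec_smul, mulVec_smul, smul_smul,
      add_mulVec, one_mulVec] at h1
    have h3 := (smul_eq_zero.1 h1).resolve_left (by norm_num)
    rw [SetLike.mem_coe, mem_eig, neg_one_smul]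
    exact eq_neg_of_add_eq_zero_right h3
  rcases hU.2.2 _ inf_le_left hst with h1 | h1
  · obtain ⟨u, hu, hu'⟩ := hJ g Z h hs hg U hU hn (RingEquiv.refl ℂ) 1
    apply hu'
    rw [hDr, one_smul]
    have h2 : DZ Z *ᵥ (DZ Z *ᵥ u) = u := by rw [mulVec_mulVec, DZ_sq h.det, one_mulVec]
    have h3 : DZ Z *ᵥ u - u ∈ U ⊓ eig Z (-1) := by
      refine ⟨U.sub_mem (hU.2.1 _ DZ_mem u hu) hu, ?_⟩
      rw [SetLike.mem_coe, mem_eig, mulVec_sub, h2]
      module
    rw [h1, Submodule.mem_bot] at h3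
    exact sub_eq_zero.1 h3
  · obtain ⟨u, hu, hu'⟩ := hJ g Z h hs hg U hU hn (RingEquiv.refl ℂ) (-1)
    apply hu'
    rw [hDr]
    rw [← h1] at hu
    exact hu.2

end

end Pool.Agent.Y960.P
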